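import Mathlib

/-!
# Exponential IP sets of type I: a partition into three (or more) cells with no good cell

For `2 ≤ a < b` and `4 ≤ b` the numbers `b` and `a ^ b` always get different colours when a number
is coloured by the number of times one can take the integer base-2 logarithm before falling
below `2`, reduced modulo `3`. So no cell of that partition is an exponential IP set of type I.
-/

namespace Pool.Agent.Helper162_exp.ThreeCells

/-- The sets `FE^I_n(X)` of the problem, for `X = {x 0 < x 1 < ...}`: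
`FE^I_0 = {x 0}` and
`FE^I_(n+1) = {y ^ x (n+1) : y ∈ FE^I_n} ∪ FE^I_n ∪ {x (n+1)}`. -/
def FEI (x : ℕ → ℕ) : ℕ → Set ℕ
  | 0 => {x 0}
  | n + 1 => {m | ∃ y ∈ FEI x n, m = y ^ x (n + 1)} ∪ FEI x n ∪ {x (n + 1)}

/-- `C` is an exponential IP set of type I: it contains `FE^I(X)`, the union of the `FE^I_n(X)`,
for some infinite `X`, listed increasingly as `x 0 < x 1 < ...`. -/
def IsExpIPOne (C : Set ℕ) : Prop :=
  ∃ x : ℕ → ℕ, StrictMono x ∧ (⋃ n, FEI x n) ⊆ C

/-- The number of times one can take the integer base-2 logarithm before falling below `2`. -/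
def lev (n : ℕ) : ℕ :=
  if h : n < 2 then 0 else lev (Nat.log 2 n) + 1
termination_by n
decreasing_by
  exact Nat.log_lt_self 2 (by omega)

theorem lev_lt {n : ℕ} (h : n < 2) : lev n = 0 := by
  rw [lev]; simp [h]

theorem lev_ge {n : ℕ} (h : 2 ≤ n) : lev n = lev (Nat.log 2 n) + 1 := by
  rw [lev]; simp [Nat.not_lt.mpr h]

theorem lev_mono : Monotone lev := by
  intro a b
  induction b using Nat.strong_induction_on generalizing a with
  | _ b ih =>
    intro hab
    by_cases ha : a < 2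
    · rw [lev_lt ha]; exact Nat.zero_le _
    · have ha' : 2 ≤ a := by omega
      have hb' : 2 ≤ b := by omega
      rw [lev_ge ha', lev_ge hb']
      have h1 : Nat.log 2 b < b := Nat.log_lt_self 2 (by omega)
      have := ih (Nat.log 2 b) h1 (Nat.log_mono_right (b := 2) hab)
      omega

theorem sq_le_two_pow {b : ℕ} (hb : 4 ≤ b) : b ^ 2 ≤ 2 ^ b := by
  induction b, hb using Nat.le_induction with
  | base => norm_num
  | succ n hn ih =>
    have h : (n + 1) ^ 2 ≤ 2 * n ^ 2 := by nlinarith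
    calc (n + 1) ^ 2 ≤ 2 * n ^ 2 := h
      _ ≤ 2 * 2 ^ n := by omega
      _ = 2 ^ (n + 1) := by ring

theorem lev_sq_le {b : ℕ} (hb : 4 ≤ b) : lev (b ^ 2) ≤ lev b + 1 := by
  have h2 : 2 ≤ b ^ 2 := by nlinarith
  rw [lev_ge h2]
  have h3 : Nat.log 2 (b ^ 2) ≤ b := by
    calc Nat.log 2 (b ^ 2) ≤ Nat.log 2 (2 ^ b) := Nat.log_mono_right (sq_le_two_pow hb)
      _ = b := Nat.log_pow (by norm_num) b
  have := lev_mono h3
  omega

/-- Between one and two levels separate `b` from `a ^ b`. -/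
theorem lev_pow {a b : ℕ} (ha : 2 ≤ a) (hab : a < b) (hb : 4 ≤ b) :
    lev b + 1 ≤ lev (a ^ b) ∧ lev (a ^ b) ≤ lev b + 2 := by
  have hpos : 2 ≤ a ^ b := by
    calc 2 ≤ a := ha
      _ = a ^ 1 := (pow_one a).symm
      _ ≤ a ^ b := Nat.pow_le_pow_right (by omega) (by omega)
  have hlow : b ≤ Nat.log 2 (a ^ b) := by
    apply Nat.le_log_of_pow_le (by norm_num)
    exact Nat.pow_le_pow_left ha b
  have hup : Nat.log 2 (a ^ b) ≤ b ^ 2 := by
    calc Nat.log 2 (a ^ b) ≤ Nat.log 2 ((2 ^ b) ^ b) := by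
          apply Nat.log_mono_right
          apply Nat.pow_le_pow_left
          exact le_trans hab.le Nat.lt_two_pow_self.le
      _ = Nat.log 2 (2 ^ (b ^ 2)) := by rw [← pow_mul, sq]
      _ = b ^ 2 := Nat.log_pow (by norm_num) _
  rw [lev_ge hpos]
  have h1 := lev_mono hlow
  have h2 := lev_mono hup
  have h3 := lev_sq_le hb
  omega

theorem lev_unbounded_step (n : ℕ) (h : 1 ≤ n) : lev (2 ^ n) = lev n + 1 := by
  have h2 : 2 ≤ 2 ^ n := by
    calc 2 = 2 ^ 1 := by norm_num
      _ ≤ 2 ^ n := Nat.pow_le_pow_right (by norm_num) h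
  rw [lev_ge h2, Nat.log_pow (by norm_num)]

/-- Every residue modulo `3` is the level of arbitrarily large numbers. -/
theorem exists_lev (N i : ℕ) (hi : i < 3) : ∃ n, N ≤ n ∧ lev n % 3 = i := by
  have h0 : 1 ≤ N + 1 := by omega
  have e1 := lev_unbounded_step (N + 1) h0
  have p1 : 1 ≤ 2 ^ (N + 1) := Nat.one_le_two_pow
  have e2 := lev_unbounded_step (2 ^ (N + 1)) p1
  have q1 : N + 1 ≤ 2 ^ (N + 1) := Nat.lt_two_pow_self.le
  have q2 : 2 ^ (N + 1) ≤ 2 ^ (2 ^ (N + 1)) := Nat.lt_two_pow_self.le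
  have : lev (N + 1) % 3 = i ∨ lev (2 ^ (N + 1)) % 3 = i ∨ lev (2 ^ (2 ^ (N + 1))) % 3 = i := by
    omega
  rcases this with h | h | h
  · exact ⟨_, by omega, h⟩
  · exact ⟨_, by omega, h⟩
  · exact ⟨2 ^ (2 ^ (N + 1)), by omega, h⟩

theorem mem_FEI_of_le {x : ℕ → ℕ} {m n : ℕ} (h : m ≤ n) : FEI x m ⊆ FEI x n := by
  induction n, h using Nat.le_induction with
  | base => exact subset_rfl
  | succ n hn ih =>
    intro y hy
    simp only [FEI]
    exact Or.inl (Or.inr (ih hy))

theorem self_mem_FEI (x : ℕ → ℕ) (n : ℕ) : x n ∈ FEI x n := by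
  cases n with
  | zero => simp [FEI]
  | succ n => simp only [FEI]; exact Or.inr rfl

theorem pow_mem_FEI (x : ℕ → ℕ) {i j : ℕ} (h : i < j) : x i ^ x j ∈ FEI x j := by
  cases j with
  | zero => omega
  | succ j =>
    simp only [FEI]
    exact Or.inl (Or.inl ⟨x i, mem_FEI_of_le (by omega) (self_mem_FEI x i), rfl⟩)

/-- **Negative answer to Q2 for type I.** For every `r ≥ 3` there is a partition of `ℕ` into `r`
nonempty cells (the fibres of a surjection `c : ℕ → Fin r`) none of whose cells is an exponential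
IP set of type I. In fact beyond some point no cell contains both `b` and `a ^ b` with
`2 ≤ a < b`. -/
theorem three_cells (r : ℕ) (hr : 3 ≤ r) :
    ∃ c : ℕ → Fin r, Function.Surjective c ∧
      (∀ a b : ℕ, 2 ≤ a → a < b → r + 1 ≤ b → c (a ^ b) ≠ c b) ∧
      ∀ i : Fin r, ¬ IsExpIPOne {n | c n = i} := by
  classical
  let c : ℕ → Fin r := fun n =>
    if h : n < r - 3 then ⟨n + 3, by omega⟩ else ⟨lev n % 3, by omega⟩
  have hc_big : ∀ n, r - 3 ≤ n → (c n : ℕ) = lev n % 3 := by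
    intro n hn
    have : ¬ n < r - 3 := by omega
    simp [c, this]
  have key : ∀ a b : ℕ, 2 ≤ a → a < b → r + 1 ≤ b → c (a ^ b) ≠ c b := by
    intro a b ha hab hb heq
    have h4 : 4 ≤ b := by omega
    have hpow : b ≤ a ^ b := by
      calc b ≤ 2 ^ b := Nat.lt_two_pow_self.le
        _ ≤ a ^ b := Nat.pow_le_pow_left ha b
    have e1 := hc_big (a ^ b) (by omega)
    have e2 := hc_big b (by omega)
    have e3 : (c (a ^ b) : ℕ) = (c b : ℕ) := by rw [heq]
    obtain ⟨l1, l2⟩ := lev_pow ha hab h4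
    omega
  refine ⟨c, ?_, key, ?_⟩
  · intro i
    by_cases hi : (i : ℕ) < 3
    · obtain ⟨n, hn, hl⟩ := exists_lev (r - 3) i hi
      refine ⟨n, Fin.ext ?_⟩
      rw [hc_big n hn, hl]
    · refine ⟨i - 3, Fin.ext ?_⟩
      have : (i : ℕ) - 3 < r - 3 := by
        have := i.isLt
        omega
      simp only [c, this, dif_pos]
      omega
  · rintro i ⟨x, hx, hsub⟩
    have hmono : ∀ n, n ≤ x n := hx.id_le
    have h2 : 2 ≤ x 2 := hmono 2
    set j := r + 1 with hj
    have hj2 : 2 < j := by omega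
    have hlt : x 2 < x j := hx hj2
    have hbig : r + 1 ≤ x j := hmono j
    have m1 : x 2 ^ x j ∈ {n | c n = i} :=
      hsub (Set.mem_iUnion.mpr ⟨j, pow_mem_FEI x hj2⟩)
    have m2 : x j ∈ {n | c n = i} :=
      hsub (Set.mem_iUnion.mpr ⟨j, self_mem_FEI x j⟩)
    have m1' : c (x 2 ^ x j) = i := m1
    have m2' : c (x j) = i := m2
    exact key (x 2) (x j) h2 hlt hbig (m1'.trans m2'.symm)

end Pool.Agent.Helper162_exp.ThreeCells
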